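import Pool.Agent.H70.Comb6

/-!
# Monotonely refinable maps between regular curves of finite order

We answer Q1 in the affirmative: there are two non-homeomorphic regular curves `X`, `Y` of finite
order (every point has order at most three) and a monotonely refinable map of `X` onto `Y`.

`Y` is a plane comb: the interval `[-1,1]` with a hair attached at every point of a self-similar
discrete set; `X` is obtained from `Y` by replacing the (non-branch) point `0` by a free arc, and
`r : X → Y` collapses this arc.  For each `k` there is a monotone map at scale `3 ^ (-k)`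
which is injective on the free arc, moving it onto a free arc of `Y` next to `0`.
-/

open Set Topology Filter

namespace Pool.Agent.Results.MP_fdfd6d_gt.DistinctRegularCurves

open Pool.Agent.H70

/-- A curve: a nonempty compact connected metric space of (small inductive) dimension one. -/
structure IsCurve (X : Type) [MetricSpace X] : Prop where
  compact : CompactSpace X
  connected : ConnectedSpace X
  dim_eq_one : smallInductiveDimension X = 1

/-- A regular curve: a curve in which every point has arbitrarily small open neighbourhoods with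
finite boundary. -/
def IsRegularCurve (X : Type) [MetricSpace X] : Prop :=
  IsCurve X ∧ ∀ (p : X) (ε : ℝ), 0 < ε →
    ∃ V : Set X, IsOpen V ∧ p ∈ V ∧ V ⊆ Metric.ball p ε ∧ (frontier V).Finite

/-- The point `p` of `X` has order at most `n` (Menger-Urysohn): it has arbitrarily small open
neighbourhoods whose boundaries contain at most `n` points. -/
def OrderAtMost {X : Type} [MetricSpace X] (p : X) (n : ℕ) : Prop :=
  ∀ ε : ℝ, 0 < ε →
    ∃ V : Set X, IsOpen V ∧ p ∈ V ∧ V ⊆ Metric.ball p ε ∧ (frontier V).encard ≤ n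

/-- `f` is an `ε`-map: every fibre has diameter less than `ε`. -/
def IsEpsilonMap {X Y : Type} [MetricSpace X] [MetricSpace Y] (ε : ℝ) (f : X → Y) : Prop :=
  ∀ y : Y, Metric.diam (f ⁻¹' {y}) < ε

/-- `f` is monotone: every fibre is connected (and nonempty). -/
def IsMonotoneMap {X Y : Type} [MetricSpace X] [MetricSpace Y] (f : X → Y) : Prop :=
  ∀ y : Y, IsConnected (f ⁻¹' {y})

/-- `r` is a monotonely refinable map of `X` onto `Y`. -/
def IsMonotonelyRefinable {X Y : Type} [MetricSpace X] [MetricSpace Y] (r : X → Y) : Prop :=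
  Continuous r ∧ Function.Surjective r ∧
    ∀ ε : ℝ, 0 < ε → ∃ f : X → Y, Continuous f ∧ Function.Surjective f ∧
      IsMonotoneMap f ∧ IsEpsilonMap ε f ∧ ∀ x : X, dist (f x) (r x) < ε

/-! ### Dimension -/

theorem dim_one {Z : Type} [MetricSpace Z] [ConnectedSpace Z] [Nontrivial Z]
    (h : ∀ (p : Z) (U : Set Z), IsOpen U → p ∈ U →
      ∃ V : Set Z, IsOpen V ∧ p ∈ V ∧ V ⊆ U ∧ (frontier V).Finite) :
    smallInductiveDimension Z = 1 := by
  apply smallInductiveDimension_eq 1
  · refine HasSmallInductiveDimensionLT.succ 1 {V | IsOpen V ∧ (frontier V).Finite} ?_ ?_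
    · apply TopologicalSpace.isTopologicalBasis_of_isOpen_of_nhds
      · intro u hu; exact hu.1
      · intro p U hp hU
        obtain ⟨V, h1, h2, h3, h4⟩ := h p U hU hp
        exact ⟨V, ⟨h1, h4⟩, h2, h3⟩
    · intro U hU
      rw [hasSmallInductiveDimensionLT_one_iff]
      have hfin : Finite (frontier U) := hU.2.to_subtype
      apply TopologicalSpace.isTopologicalBasis_of_isOpen_of_nhds
      · intro u hu; exact hu.isOpen
      · intro p V hp hV
        exact ⟨V, isClopen_discrete V, hp, subset_rfl⟩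
  · rw [hasSmallInductiveDimensionLT_one_iff]
    intro hb
    obtain ⟨a, b, hab⟩ := exists_pair_ne Z
    obtain ⟨V, hV, haV, hVb⟩ := hb.exists_subset_of_mem_open (show a ∈ ({b}ᶜ : Set Z) from hab)
      isOpen_compl_singleton
    rcases isClopen_iff.mp hV with h1 | h1
    · rw [h1] at haV; exact haV
    · rw [h1] at hVb
      exact hVb (mem_univ b) rfl

theorem regular_comb {a b : ℝ} {h : ℝ → ℝ} (H : IsHair h) (hab : a < b) :
    IsRegularCurve (Comb a b h) ∧ ∀ p : Comb a b h, OrderAtMost p 3 := by
  have hfin : ∀ (p : Comb a b h) (U : Set (Comb a b h)), IsOpen U → p ∈ U →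
      ∃ V : Set (Comb a b h), IsOpen V ∧ p ∈ V ∧ V ⊆ U ∧ (frontier V).Finite := by
    intro p U hU hp
    obtain ⟨V, h1, h2, h3, h4⟩ := comb_small_nhd H p U hU hp
    refine ⟨V, h1, h2, h3, ?_⟩
    rw [← encard_lt_top_iff]
    exact lt_of_le_of_lt h4 (by exact_mod_cast ENat.natCast_lt_top 3)
  have : ConnectedSpace (Comb a b h) := comb_connected H hab.le
  have : Nontrivial (Comb a b h) :=
    ⟨⟨(a, 0), le_rfl, hab.le, le_rfl, H.nonneg _⟩, ⟨(b, 0), hab.le, le_rfl, le_rfl, H.nonneg _⟩, by
      intro hcon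
      have := congrArg (fun q : Comb a b h => q.1.1) hcon
      simp only at this
      exact hab.ne this⟩
  refine ⟨⟨⟨isCompact_iff_compactSpace.mp (isCompact_comb H), comb_connected H hab.le,
    dim_one hfin⟩, ?_⟩, ?_⟩
  · intro p ε hε
    exact hfin p _ Metric.isOpen_ball (Metric.mem_ball_self hε)
  · intro p ε hε
    exact comb_small_nhd H p _ Metric.isOpen_ball (Metric.mem_ball_self hε)

/-! ### The maps -/

/-- the refinable map -/
noncomputable def rMap (p : XX) : YY :=
  ⟨(rho p.1.1, p.1.2), by
    have h1 := p.2.1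
    have h2 := p.2.2.1
    refine ⟨?_, ?_, p.2.2.2.1, p.2.2.2.2⟩
    · simp only
      rcases le_or_gt p.1.1 0 with h3 | h3
      · rw [rho_of_le h3]; exact h1
      rcases le_or_gt p.1.1 1 with h4 | h4
      · rw [rho_mid h3.le h4]; norm_num
      · rw [rho_of_ge h4.le]; linarith
    · simp only
      rcases le_or_gt p.1.1 0 with h3 | h3
      · rw [rho_of_le h3]; linarith
      rcases le_or_gt p.1.1 1 with h4 | h4
      · rw [rho_mid h3.le h4]; norm_num
      · rw [rho_of_ge h4.le]; linarith⟩

theorem rMap_continuous : Continuous rMap :=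
  Continuous.subtype_mk ((rho_continuous.comp comb_cf).prodMk comb_cs) _

theorem rMap_surjective : Function.Surjective rMap := by
  rintro ⟨⟨x, y⟩, h1, h2, h3, h4⟩
  simp only at h1 h2 h3 h4
  rcases le_or_gt x 0 with h5 | h5
  · refine ⟨⟨(x, y), h1, by simp only; linarith, h3, by simp only; rwa [hX_of_le h5]⟩, ?_⟩
    apply Subtype.ext
    exact Prod.ext (rho_of_le h5) rfl
  · refine ⟨⟨(x + 1, y), by simp only; linarith, by simp only; linarith, h3, ?_⟩, ?_⟩
    · simp only
      rw [hX_of_ge (by linarith)]; simpa using h4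
    · apply Subtype.ext
      apply Prod.ext
      · show rho (x + 1) = x
        rw [rho_of_ge (by linarith)]; ring
      · rfl

/-- the monotone map at scale `δ (k+1)` -/
noncomputable def fMap (k : ℕ) (p : XX) : YY :=
  ⟨(phi (δ (k+1)) p.1.1, cc (δ (k+1)) p.1.1 * p.1.2), by
    have h := phi_mem (δ_pos (k+1)) (δ_succ_le k) p.2.1 p.2.2.1
    refine ⟨h.1, h.2, mul_nonneg (cc_nonneg _ _) p.2.2.2.1, ?_⟩
    exact (mul_le_mul_of_nonneg_left p.2.2.2.2 (cc_nonneg _ _)).trans (phi_height k _)⟩

theorem fMap_continuous (k : ℕ) : Continuous (fMap k) :=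
  Continuous.subtype_mk (continuous_combMap isHair_hX (phi_continuous _) (cc_nonneg _) (cc_le _)) _

theorem fMap_surjective (k : ℕ) : Function.Surjective (fMap k) := by
  rintro ⟨⟨x, y⟩, h1, h2, h3, h4⟩
  obtain ⟨x', y', g1, g2, g3, g4, g5, g6⟩ := phi_surj k h1 h2 h3 h4
  exact ⟨⟨(x', y'), g1, g2, g3, g4⟩, Subtype.ext (Prod.ext g5 g6)⟩

theorem fMap_monotone (k : ℕ) : IsMonotoneMap (fMap k) := by
  intro z
  refine ⟨(fMap_surjective k z).imp (fun _ h => h), ?_⟩
  have hd := δ_pos (k+1)
  rcases z.2.2.2.1.eq_or_lt with hz | hz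
  · apply down_sub
    · rintro p hp t ht0 ht
      have hp' : fMap k p = z := hp
      have e1 : phi (δ (k+1)) p.1.1 = z.1.1 := by rw [← hp']; rfl
      have e2 : cc (δ (k+1)) p.1.1 * p.1.2 = z.1.2 := by rw [← hp']; rfl
      show fMap k _ = z
      apply Subtype.ext
      apply Prod.ext
      · exact e1
      · show cc (δ (k+1)) p.1.1 * t = z.1.2
        have h1 : cc (δ (k+1)) p.1.1 * t ≤ cc (δ (k+1)) p.1.1 * p.1.2 :=
          mul_le_mul_of_nonneg_left ht (cc_nonneg _ _)
        have h2 : 0 ≤ cc (δ (k+1)) p.1.1 * t := mul_nonneg (cc_nonneg _ _) ht0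
        linarith
    · intro p hp q hq x hx1 hx2
      have hp' : fMap k p = z := hp
      have hq' : fMap k q = z := hq
      have e1 : phi (δ (k+1)) p.1.1 = z.1.1 := by rw [← hp']; rfl
      have e2 : phi (δ (k+1)) q.1.1 = z.1.1 := by rw [← hq']; rfl
      refine ⟨⟨(x, 0), p.2.1.trans hx1, hx2.trans q.2.2.1, le_rfl, isHair_hX.nonneg _⟩, ?_, rfl⟩
      show fMap k _ = z
      apply Subtype.ext
      apply Prod.ext
      · show phi (δ (k+1)) x = z.1.1
        apply le_antisymm
        · rw [← e2]; exact phi_monotone hd hx2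
        · rw [← e1]; exact phi_monotone hd hx1
      · show cc (δ (k+1)) x * 0 = z.1.2
        rw [← hz]; ring
  · apply Set.Subsingleton.isPreconnected
    intro p hp q hq
    have hp' : fMap k p = z := hp
    have hq' : fMap k q = z := hq
    have e1 : phi (δ (k+1)) p.1.1 = z.1.1 := by rw [← hp']; rfl
    have e2 : phi (δ (k+1)) q.1.1 = z.1.1 := by rw [← hq']; rfl
    have e3 : cc (δ (k+1)) p.1.1 * p.1.2 = z.1.2 := by rw [← hp']; rfl
    have e4 : cc (δ (k+1)) q.1.1 * q.1.2 = z.1.2 := by rw [← hq']; rfl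
    have hx : p.1.1 = q.1.1 := by
      rcases lt_trichotomy p.1.1 q.1.1 with h1 | h1 | h1
      · have := cc_inj hd (δ_succ_le k) h1 (e1.trans e2.symm)
        rw [this, zero_mul] at e3
        linarith
      · exact h1
      · have := cc_inj hd (δ_succ_le k) h1 (e2.trans e1.symm)
        rw [this, zero_mul] at e4
        linarith
    have hc : cc (δ (k+1)) p.1.1 ≠ 0 := by
      intro h0
      rw [h0, zero_mul] at e3
      linarith
    apply Subtype.ext
    apply Prod.ext hx
    rw [← hx] at e4
    exact mul_left_cancel₀ hc (e3.trans e4.symm)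

theorem fMap_fibre (k : ℕ) (z : YY) : Metric.diam (fMap k ⁻¹' {z}) ≤ 12 * δ (k+1) := by
  have hd := δ_pos (k+1)
  apply Metric.diam_le_of_forall_dist_le (by linarith)
  intro p hp q hq
  have hp' : fMap k p = z := hp
  have hq' : fMap k q = z := hq
  have e1 : phi (δ (k+1)) p.1.1 = z.1.1 := by rw [← hp']; rfl
  have e2 : phi (δ (k+1)) q.1.1 = z.1.1 := by rw [← hq']; rfl
  have e3 : cc (δ (k+1)) p.1.1 * p.1.2 = z.1.2 := by rw [← hp']; rfl
  have e4 : cc (δ (k+1)) q.1.1 * q.1.2 = z.1.2 := by rw [← hq']; rfl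
  rw [Subtype.dist_eq, Prod.dist_eq, Real.dist_eq, Real.dist_eq]
  rcases lt_trichotomy p.1.1 q.1.1 with h1 | h1 | h1
  · have := fibre_small_aux k p.2.2.2.1 p.2.2.2.2 q.2.2.2.1 q.2.2.2.2 h1 (e1.trans e2.symm)
      (e3.trans e4.symm)
    exact max_le this.1 this.2
  · apply max_le
    · rw [h1]; simp only [sub_self, abs_zero]; linarith
    · by_cases hc : cc (δ (k+1)) p.1.1 = 0
      · have hpx : - δ (k+1) ≤ p.1.1 ∧ p.1.1 ≤ 1 + 2 * δ (k+1) := by
          unfold cc at hc
          split_ifs at hc with h2 h3 h4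
          · exact absurd hc one_ne_zero
          · norm_num at hc
          · exact ⟨not_lt.mp h2, h4.le⟩
          · exact absurd hc one_ne_zero
        have hs1 := hX_small k hpx.1 hpx.2
        have hs2 := hX_small k (x := q.1.1) (by rw [← h1]; exact hpx.1) (by rw [← h1]; exact hpx.2)
        have a1 := p.2.2.2.1
        have a2 := q.2.2.2.1
        have a3 := p.2.2.2.2
        have a4 := q.2.2.2.2
        rw [abs_le]
        constructor <;> linarith
      · rw [← h1] at e4
        have : p.1.2 = q.1.2 := mul_left_cancel₀ hc (e3.trans e4.symm)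
        rw [this]; simp only [sub_self, abs_zero]; linarith
  · have := fibre_small_aux k q.2.2.2.1 q.2.2.2.2 p.2.2.2.1 p.2.2.2.2 h1 (e2.trans e1.symm)
      (e4.trans e3.symm)
    rw [abs_sub_comm, abs_sub_comm p.1.2]
    exact max_le this.1 this.2

theorem fMap_close (k : ℕ) (p : XX) : dist (fMap k p) (rMap p) ≤ 12 * δ (k+1) := by
  have := phi_close k p.2.2.2.1 p.2.2.2.2
  rw [Subtype.dist_eq, Prod.dist_eq, Real.dist_eq, Real.dist_eq]
  exact max_le this.1 this.2

/-- **Answer to Q1 (yes).** There are two regular curves `X`, `Y` of finite order (all points have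
order at most three), not homeomorphic to each other, and a monotonely refinable map of `X` onto
`Y`. -/
theorem result : ∃ (X Y : Type) (_ : MetricSpace X) (_ : MetricSpace Y),
    (IsRegularCurve X ∧ ∀ p : X, OrderAtMost p 3) ∧
    (IsRegularCurve Y ∧ ∀ p : Y, OrderAtMost p 3) ∧
    IsEmpty (X ≃ₜ Y) ∧
    ∃ r : X → Y, IsMonotonelyRefinable r := by
  refine ⟨XX, YY, inferInstance, inferInstance, regular_comb isHair_hX (by norm_num),
    regular_comb isHair_hh (by norm_num), not_homeo, rMap, rMap_continuous, rMap_surjective, ?_⟩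
  intro ε hε
  obtain ⟨k, hk⟩ := exists_δ_lt (show 0 < ε / 12 by positivity)
  have hd := δ_pos k
  have hd' := δ_succ k
  refine ⟨fMap k, fMap_continuous k, fMap_surjective k, fMap_monotone k, ?_, ?_⟩
  · intro y
    refine (fMap_fibre k y).trans_lt ?_
    linarith
  · intro x
    refine (fMap_close k x).trans_lt ?_
    linarith

end Pool.Agent.Results.MP_fdfd6d_gt.DistinctRegularCurves
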